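import Mathlib

/-!
# Semilinear functionals with algebraically independent-like values

`E` a number field, `C` an algebraically closed field of characteristic `0`, `M` an `E`-vector space.
-/

namespace Pool.Agent.N192.AV

open Module

section emb
variable {E C : Type} [Field E] [CharZero E] [FiniteDimensional ℚ E] [Field C] [CharZero C]
  [IsAlgClosed C]

/-- every `ℚ`-linear map `E → C` is a combination of the embeddings -/
theorem comb_of_embeddings (f : E →ₗ[ℚ] C) :
    ∃ γ : (E →ₐ[ℚ] C) → C, ∀ x, f x = ∑ τ, γ τ * τ x := by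
  classical
  have h1 : LinearIndependent C (AlgHom.toLinearMap : (E →ₐ[ℚ] C) → E →ₗ[ℚ] C) :=
    linearIndependent_toLinearMap ℚ E C
  have h2 : Fintype.card (E →ₐ[ℚ] C) = finrank C (E →ₗ[ℚ] C) := by
    rw [finrank_linearMap_self, AlgHom.card]
  have h3 := h1.span_eq_top_of_card_eq_finrank' h2
  have h4 : f ∈ Submodule.span C (Set.range (AlgHom.toLinearMap : (E →ₐ[ℚ] C) → E →ₗ[ℚ] C)) := by
    rw [h3]; trivial
  rw [Submodule.mem_span_range_iff_exists_fun] at h4
  obtain ⟨γ, hγ⟩ := h4
  refine ⟨γ, fun x => ?_⟩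
  rw [← hγ]
  simp [LinearMap.sum_apply]

/-- an element with equal conjugates is rational -/
theorem rational_of_conj_eq (x : E) (h : ∀ σ τ : E →ₐ[ℚ] C, σ x = τ x) :
    ∃ q : ℚ, x = algebraMap ℚ E q := by
  obtain ⟨σ⟩ : Nonempty (E →ₐ[ℚ] C) := by
    rw [← Fintype.card_pos_iff, AlgHom.card]
    exact finrank_pos
  have h1 := trace_eq_sum_embeddings (K := ℚ) (L := E) C (x := x)
  rw [Finset.sum_congr rfl (fun τ _ => h τ σ), Finset.sum_const, Finset.card_univ, AlgHom.card] at h1
  have h2 : ((finrank ℚ E : ℚ)) ≠ 0 := by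
    have : 0 < finrank ℚ E := finrank_pos
    exact_mod_cast this.ne'
  refine ⟨Algebra.trace ℚ E x / finrank ℚ E, σ.toRingHom.injective ?_⟩
  show σ x = σ (algebraMap ℚ E _)
  rw [σ.commutes, map_div₀, h1]
  have h3 : (algebraMap ℚ C) (finrank ℚ E : ℚ) = (finrank ℚ E : C) := by simp
  rw [h3, nsmul_eq_mul]
  have h4 : (finrank ℚ E : C) ≠ 0 := by
    have : 0 < finrank ℚ E := finrank_pos
    exact_mod_cast this.ne'
  field_simp

end emb

/-- A family of semilinear functionals, one for each embedding, whose values at `E`-independent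
elements are independent over the algebraic numbers. -/
structure Fam (E C M : Type) [Field E] [CharZero E] [Field C] [CharZero C]
    [AddCommGroup M] [Module E M] where
  /-- the functionals -/
  lam : (E →ₐ[ℚ] C) → M → C
  add : ∀ σ x y, lam σ (x + y) = lam σ x + lam σ y
  smul : ∀ σ (e : E) x, lam σ (e • x) = σ e * lam σ x
  indep : ∀ (s : ℕ) (P : Fin s → M), LinearIndependent E P → ∀ (σ : E →ₐ[ℚ] C) (a : Fin s → C),
    (∀ i, IsAlgebraic ℚ (a i)) → ∑ i, a i * lam σ (P i) = 0 → ∀ i, a i = 0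

namespace Fam

variable {E C M : Type} [Field E] [CharZero E] [FiniteDimensional ℚ E] [Field C] [CharZero C]
  [IsAlgClosed C] [AddCommGroup M] [Module E M] (F : Fam E C M)

theorem zero (σ : E →ₐ[ℚ] C) : F.lam σ 0 = 0 := by
  have := F.add σ 0 0
  simpa using this

theorem sum (σ : E →ₐ[ℚ] C) {ι : Type*} (s : Finset ι) (f : ι → M) :
    F.lam σ (∑ i ∈ s, f i) = ∑ i ∈ s, F.lam σ (f i) := by
  classical
  induction s using Finset.induction_on with
  | empty => simp [F.zero]
  | insert a s ha ih => rw [Finset.sum_insert ha, Finset.sum_insert ha, F.add, ih]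

theorem sum_smul (σ : E →ₐ[ℚ] C) {t : ℕ} (x : Fin t → E) (P : Fin t → M) :
    F.lam σ (∑ i, x i • P i) = ∑ i, σ (x i) * F.lam σ (P i) := by
  rw [F.sum]
  exact Finset.sum_congr rfl fun i _ => F.smul σ _ _

theorem alg_emb (σ : E →ₐ[ℚ] C) (x : E) : IsAlgebraic ℚ (σ x) :=
  (Algebra.IsAlgebraic.isAlgebraic (R := ℚ) x).algHom σ

end Fam

end Pool.Agent.N192.AV
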