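import Mathlib
import Pool.Agent.N192.AV.Lin

/-!
# The dimension of a space on which the functionals have small rank
-/

namespace Pool.Agent.N192.AV

open Module

namespace Fam

variable {E C M : Type} [Field E] [CharZero E] [FiniteDimensional ℚ E] [Field C] [CharZero C]
  [IsAlgClosed C] [AddCommGroup M] [Module E M] [Module ℚ M] [IsScalarTower ℚ E M] (F : Fam E C M)

/-- the algebraic numbers in `C` -/
abbrev K (C : Type) [Field C] [CharZero C] := algebraicClosure ℚ C

omit [IsAlgClosed C] in
theorem alg_of_K (x : K C) : IsAlgebraic ℚ (x : C) :=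
  mem_algebraicClosure_iff.1 x.2

/-- the embedding into the algebraic numbers -/
noncomputable def sK (σ : E →ₐ[ℚ] C) (x : E) : K C :=
  ⟨σ x, mem_algebraicClosure_iff.2 ((Algebra.IsAlgebraic.isAlgebraic (R := ℚ) x).algHom σ)⟩

omit [IsAlgClosed C] in
@[simp] theorem coe_sK (σ : E →ₐ[ℚ] C) (x : E) : ((sK σ x : K C) : C) = σ x := rfl

omit F in
theorem coef_zero {m t : ℕ} (b : Fin m → M) (hb : LinearIndependent ℚ b)
    (P : Fin t → M) (x : Fin m → Fin t → E)
    (hx : ∀ j, b j = ∑ i, x j i • P i) (α : Fin m → C)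
    (h : ∀ (τ : E →ₐ[ℚ] C) i, ∑ j, α j * τ (x j i) = 0) : ∀ j, α j = 0 := by
  classical
  intro j0
  -- a functional with `f (b j) = δ`
  obtain ⟨f, hf⟩ : ∃ f : M →ₗ[ℚ] ℚ, ∀ j, f (b j) = if j = j0 then 1 else 0 := by
    obtain ⟨g, hg⟩ := LinearMap.exists_extend
      (p := Submodule.span ℚ (Set.range b)) ((Basis.span hb).coord j0)
    refine ⟨g, fun j => ?_⟩
    have h1 : g (b j) = (Basis.span hb).coord j0 ⟨b j, Submodule.subset_span ⟨j, rfl⟩⟩ :=
      LinearMap.congr_fun hg ⟨b j, Submodule.subset_span ⟨j, rfl⟩⟩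
    have h2 : (⟨b j, Submodule.subset_span ⟨j, rfl⟩⟩ : Submodule.span ℚ (Set.range b)) =
        Basis.span hb j := by
      apply Subtype.ext
      rw [Basis.span_apply]
    rw [h1, h2, Basis.coord_apply, Basis.repr_self, Finsupp.single_apply]
  let fc : M →ₗ[ℚ] C := (Algebra.linearMap ℚ C).comp f
  have h1 : ∀ i, ∃ γ : (E →ₐ[ℚ] C) → C, ∀ y : E, fc (y • P i) = ∑ τ, γ τ * τ y := by
    intro i
    let g : E →ₗ[ℚ] C :=
      { toFun := fun y => fc (y • P i)
        map_add' := fun y z => by rw [add_smul, map_add]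
        map_smul' := fun q y => by rw [smul_assoc, map_smul]; rfl }
    exact comb_of_embeddings g
  choose γ hγ using h1
  have h2 : ∑ j, α j * fc (b j) = 0 := by
    have h3 : ∀ j, fc (b j) = ∑ i, ∑ τ, γ i τ * τ (x j i) := by
      intro j
      rw [hx j, map_sum]
      exact Finset.sum_congr rfl fun i _ => hγ i _
    simp_rw [h3, Finset.mul_sum]
    rw [Finset.sum_comm]
    refine Finset.sum_eq_zero fun i _ => ?_
    rw [Finset.sum_comm]
    refine Finset.sum_eq_zero fun τ _ => ?_
    have h4 := h τ i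
    calc ∑ j, α j * (γ i τ * τ (x j i)) = γ i τ * ∑ j, α j * τ (x j i) := by
          rw [Finset.mul_sum]
          exact Finset.sum_congr rfl fun j _ => by ring
      _ = 0 := by rw [h4, mul_zero]
  have h5 : ∀ j, fc (b j) = if j = j0 then 1 else 0 := by
    intro j
    show (algebraMap ℚ C) (f (b j)) = _
    rw [hf j]
    split_ifs <;> simp
  simp_rw [h5] at h2
  simpa using h2

/-- If the functionals restricted to the span of the `b j` generate a space of dimension `≤ ρ`, then
there are at most `ρ t` of the `b j`, `t` the dimension of a space over `E` which contains them. -/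
theorem card_le {m t ρ : ℕ} (b : Fin m → M) (hb : LinearIndependent ℚ b)
    (P : Fin t → M) (hP : LinearIndependent E P) (x : Fin m → Fin t → E)
    (hx : ∀ j, b j = ∑ i, x j i • P i)
    (hρ : finrank C (Submodule.span C (Set.range fun (σ : E →ₐ[ℚ] C) (j : Fin m) =>
      F.lam σ (b j))) ≤ ρ) : m ≤ ρ * t := by
  classical
  by_contra hcon
  push Not at hcon
  set R : (E →ₐ[ℚ] C) → Fin m → C := fun σ j => F.lam σ (b j) with hR
  obtain ⟨κ, a, ha, hsp, hli⟩ := exists_linearIndependent' C R
  have : Finite κ := Finite.of_injective a ha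
  have := Fintype.ofFinite κ
  have hcard : Fintype.card κ ≤ ρ := by
    rw [← finrank_span_eq_card hli, hsp]
    exact hρ
  let G : (Fin m → K C) →ₗ[K C] (κ × Fin t → K C) :=
    { toFun := fun α ki => ∑ j, α j * sK (a ki.1) (x j ki.2)
      map_add' := fun α β => by
        ext ki
        simp [add_mul, Finset.sum_add_distrib]
      map_smul' := fun c α => by
        ext ki
        simp [Finset.mul_sum, mul_assoc] }
  have hG : LinearMap.ker G ≠ ⊥ := by
    apply LinearMap.ker_ne_bot_of_finrank_lt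
    simp only [finrank_fintype_fun_eq_card, Fintype.card_prod, Fintype.card_fin]
    exact lt_of_le_of_lt (Nat.mul_le_mul_right t hcard) hcon
  obtain ⟨α, hα, hα0⟩ := Submodule.exists_mem_ne_zero_of_ne_bot hG
  have h1 : ∀ k i, ∑ j, (α j : C) * (a k) (x j i) = 0 := by
    intro k i
    have := congrFun (LinearMap.mem_ker.1 hα) (k, i)
    have h2 := congrArg (fun z : K C => (z : C)) this
    simpa [G] using h2
  have key : ∀ τ : E →ₐ[ℚ] C, ∑ j, (α j : C) * F.lam τ (b j) =
      ∑ i, (∑ j, (α j : C) * τ (x j i)) * F.lam τ (P i) := by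
    intro τ
    have h3 : ∀ j, F.lam τ (b j) = ∑ i, τ (x j i) * F.lam τ (P i) := by
      intro j
      rw [hx j, F.sum_smul]
    simp_rw [h3, Finset.mul_sum, Finset.sum_mul]
    rw [Finset.sum_comm]
    exact Finset.sum_congr rfl fun i _ => Finset.sum_congr rfl fun j _ => by ring
  -- the functional `α`
  let A : (Fin m → C) →ₗ[C] C :=
    { toFun := fun v => ∑ j, (α j : C) * v j
      map_add' := fun v w => by simp [mul_add, Finset.sum_add_distrib]
      map_smul' := fun c v => by
        simp only [Pi.smul_apply, smul_eq_mul, RingHom.id_apply, Finset.mul_sum]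
        exact Finset.sum_congr rfl fun j _ => by ring }
  have h4 : Submodule.span C (Set.range (R ∘ a)) ≤ LinearMap.ker A := by
    rw [Submodule.span_le]
    rintro _ ⟨k, rfl⟩
    show A (R (a k)) = 0
    show ∑ j, (α j : C) * F.lam (a k) (b j) = 0
    rw [key]
    exact Finset.sum_eq_zero fun i _ => by rw [h1, zero_mul]
  have h5 : ∀ τ : E →ₐ[ℚ] C, ∑ j, (α j : C) * F.lam τ (b j) = 0 := by
    intro τ
    have h6 : R τ ∈ Submodule.span C (Set.range (R ∘ a)) := by
      rw [hsp]
      exact Submodule.subset_span ⟨τ, rfl⟩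
    exact h4 h6
  have h7 : ∀ (τ : E →ₐ[ℚ] C) i, ∑ j, (α j : C) * τ (x j i) = 0 := by
    intro τ i
    have h8 := h5 τ
    rw [key] at h8
    refine F.indep t P hP τ (fun i => ∑ j, (α j : C) * τ (x j i)) (fun i => ?_) h8 i
    have h9 : ∑ j, (α j : C) * τ (x j i) = ((∑ j, α j * sK τ (x j i) : K C) : C) := by
      simp
    rw [h9]
    exact alg_of_K _
  have h10 := coef_zero b hb P x hx (fun j => (α j : C)) h7
  apply hα0
  ext j
  simpa using h10 j

end Fam

end Pool.Agent.N192.AV
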