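import Mathlib
import Pool.Agent.N192.AV.Dim

/-!
# Uniqueness of the subspaces on which all functionals are proportional
-/

namespace Pool.Agent.N192.AV

open Module

namespace Fam

variable {E C M : Type} [Field E] [CharZero E] [FiniteDimensional ℚ E] [Field C] [CharZero C]
  [IsAlgClosed C] [AddCommGroup M] [Module E M] [Module ℚ M] [IsScalarTower ℚ E M] (F : Fam E C M)

/-- the embedding into the algebraic numbers as a ring homomorphism -/
noncomputable def sKr (σ : E →ₐ[ℚ] C) : E →+* K C where
  toFun := sK σ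
  map_one' := Subtype.ext (by simp)
  map_mul' x y := Subtype.ext (by simp)
  map_zero' := Subtype.ext (by simp)
  map_add' x y := Subtype.ext (by simp)

omit [IsAlgClosed C] in
@[simp] theorem coe_sKr (σ : E →ₐ[ℚ] C) (x : E) : ((sKr σ x : K C) : C) = σ x := rfl

theorem lam_ne_zero {t : ℕ} (P : Fin t → M) (hP : LinearIndependent E P) (σ : E →ₐ[ℚ] C)
    (i : Fin t) : F.lam σ (P i) ≠ 0 := by
  classical
  intro h
  have h1 := F.indep t P hP σ (Pi.single i 1) (fun k => by
    by_cases hk : k = i
    · subst hk; simp only [Pi.single_eq_same]; exact isAlgebraic_one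
    · simp only [Pi.single_apply, hk, if_false]; exact isAlgebraic_zero) (by
    rw [Finset.sum_eq_single i]
    · simp [h]
    · intro k _ hk
      simp [Pi.single_apply, hk]
    · simp) i
  simp at h1

theorem line_unique {t : ℕ} (ht : 0 < t) (P P' : Fin t → M) (hP : LinearIndependent E P)
    (hP' : LinearIndependent E P') (g : Matrix (Fin t) (Fin t) E)
    (hg : ∀ j, P' j = ∑ i, g j i • P i) (c c' : Fin t → C) (u u' : (E →ₐ[ℚ] C) → C)
    (h : ∀ σ i, F.lam σ (P i) = c i * u σ) (h' : ∀ σ j, F.lam σ (P' j) = c' j * u' σ) :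
    ∃ e : E, e ≠ 0 ∧ ∀ j, ∃ q : Fin t → ℚ, P' j = e • ∑ i, q i • P i := by
  classical
  set i0 : Fin t := ⟨0, ht⟩
  have hu : ∀ σ, u σ ≠ 0 := fun σ h0 =>
    F.lam_ne_zero P hP σ i0 (by rw [h, h0, mul_zero])
  have hu' : ∀ σ, u' σ ≠ 0 := fun σ h0 =>
    F.lam_ne_zero P' hP' σ i0 (by rw [h', h0, mul_zero])
  obtain ⟨σ0⟩ : Nonempty (E →ₐ[ℚ] C) := by
    rw [← Fintype.card_pos_iff, AlgHom.card]
    exact finrank_pos
  have hc : c i0 ≠ 0 := fun h0 =>
    F.lam_ne_zero P hP σ0 i0 (by rw [h, h0, zero_mul])
  -- independence of the `c i`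
  have hci : ∀ a : Fin t → C, (∀ i, IsAlgebraic ℚ (a i)) → ∑ i, a i * c i = 0 → ∀ i, a i = 0 := by
    intro a ha h0
    refine F.indep t P hP σ0 a ha ?_
    calc ∑ i, a i * F.lam σ0 (P i) = (∑ i, a i * c i) * u σ0 := by
          rw [Finset.sum_mul]
          exact Finset.sum_congr rfl fun i _ => by rw [h]; ring
      _ = 0 := by rw [h0, zero_mul]
  have hrel : ∀ σ j, ∑ i, σ (g j i) * c i = c' j * (u' σ / u σ) := by
    intro σ j
    have h1 := h' σ j
    rw [hg j, F.sum_smul] at h1
    have h2 : (∑ i, σ (g j i) * c i) * u σ = c' j * u' σ := by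
      rw [← h1, Finset.sum_mul]
      exact Finset.sum_congr rfl fun i _ => by rw [h]; ring
    rw [← mul_div_assoc, eq_div_iff (hu σ), h2]
  have hdet : g.det ≠ 0 := by
    intro h0
    obtain ⟨v, hv, hv0⟩ := Matrix.exists_vecMul_eq_zero_iff.2 h0
    apply hv
    rw [Fintype.linearIndependent_iff] at hP'
    ext j
    refine hP' v ?_ j
    calc ∑ j, v j • P' j = ∑ i, (∑ j, v j * g j i) • P i := by
          simp_rw [hg, Finset.smul_sum, Finset.sum_smul, smul_smul]
          rw [Finset.sum_comm]
      _ = 0 := by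
          refine Finset.sum_eq_zero fun i _ => ?_
          have := congrFun hv0 i
          simp only [Matrix.vecMul, dotProduct, Pi.zero_apply] at this
          rw [this, zero_smul]
  -- the proportionality of the conjugates of `g`
  have hprop : ∀ σ τ : E →ₐ[ℚ] C, ∃ μ : K C, ∀ j i, sKr σ (g j i) = μ * sKr τ (g j i) := by
    intro σ τ
    set G : (E →ₐ[ℚ] C) → Matrix (Fin t) (Fin t) (K C) := fun ρ => g.map (sKr ρ) with hG
    have hGd : IsUnit (G τ).det := by
      rw [isUnit_iff_ne_zero]
      have h1 : (G τ).det = sKr τ g.det := by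
        rw [hG]
        exact ((sKr τ).map_det g).symm
      rw [h1]
      exact (map_ne_zero (sKr τ)).2 hdet
    set co : K C →+* C := algebraMap (K C) C with hco
    set H := (G τ)⁻¹ * G σ with hH
    set μ : C := (u' σ / u σ) / (u' τ / u τ) with hμ
    have hw : ∀ ρ, u' ρ / u ρ ≠ 0 := fun ρ => div_ne_zero (hu' ρ) (hu ρ)
    have h1 : ((G σ).map co).mulVec c = μ • ((G τ).map co).mulVec c := by
      ext j
      have e1 : ((G σ).map co).mulVec c j = ∑ i, σ (g j i) * c i := rfl
      have e2 : ((G τ).map co).mulVec c j = ∑ i, τ (g j i) * c i := rfl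
      rw [Pi.smul_apply, e1, e2, hrel, hrel, smul_eq_mul, hμ]
      have e3 := hw τ
      generalize u' σ / u σ = x at *
      generalize u' τ / u τ = y at *
      field_simp
    have h2 : (H.map co).mulVec c = μ • c := by
      have e1 : H.map co = ((G τ)⁻¹).map co * (G σ).map co := by
        rw [hH, Matrix.map_mul]
      have e2 : ((G τ)⁻¹).map co * (G τ).map co = 1 := by
        rw [← Matrix.map_mul, Matrix.nonsing_inv_mul _ hGd]
        exact Matrix.map_one _ (map_zero co) (map_one co)
      rw [e1, ← Matrix.mulVec_mulVec, h1, Matrix.mulVec_smul, Matrix.mulVec_mulVec, e2,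
        Matrix.one_mulVec]
    have h3 : (Matrix.charpoly (H.map co)).eval μ = 0 := by
      rw [Matrix.eval_charpoly]
      rw [← Matrix.exists_mulVec_eq_zero_iff]
      refine ⟨c, fun h0 => hc (congrFun h0 i0), ?_⟩
      rw [Matrix.sub_mulVec, h2]
      ext k
      simp [Matrix.scalar_apply, Matrix.mulVec_diagonal]
    have h4 : IsAlgebraic (K C) μ := by
      refine ⟨H.charpoly, (Matrix.charpoly_monic H).ne_zero, ?_⟩
      rw [Matrix.charpoly_map] at h3
      rw [Polynomial.aeval_def, ← Polynomial.eval_map]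
      exact h3
    have h5 : IsAlgebraic ℚ μ := by
      have : Algebra.IsAlgebraic ℚ (K C) := algebraicClosure.isAlgebraic ℚ C
      exact h4.restrictScalars ℚ
    set μK : K C := ⟨μ, mem_algebraicClosure_iff.2 h5⟩ with hμK
    have h6 : ∀ j i, H j i = if j = i then μK else 0 := by
      intro j i
      have h7 := hci (fun i => ((H j i - if j = i then μK else 0 : K C) : C))
        (fun i => alg_of_K _) (by
          have h8 := congrFun h2 j
          have h9 : (H.map co).mulVec c j = ∑ i, (H j i : C) * c i := rfl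
          rw [h9] at h8
          simp only [Pi.smul_apply, smul_eq_mul] at h8
          have h10 : ∀ i, ((H j i - if j = i then μK else 0 : K C) : C) * c i =
              (H j i : C) * c i - (if j = i then μ else 0) * c i := by
            intro i
            split_ifs <;> simp [hμK, sub_mul]
          simp_rw [h10]
          rw [Finset.sum_sub_distrib, h8]
          simp) i
      have h11 : H j i - (if j = i then μK else 0) = 0 := Subtype.ext (by simpa using h7)
      exact sub_eq_zero.1 h11
    have h7 : G σ = μK • G τ := by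
      have e1 : G τ * H = G σ := by
        rw [hH, ← mul_assoc, Matrix.mul_nonsing_inv _ hGd, one_mul]
      have e2 : H = μK • (1 : Matrix (Fin t) (Fin t) (K C)) := by
        ext j i
        rw [h6, Matrix.smul_apply, Matrix.one_apply, smul_eq_mul]
        split_ifs <;> simp
      rw [← e1, e2, mul_smul_comm, mul_one]
    refine ⟨μK, fun j i => ?_⟩
    have := congrFun (congrFun h7 j) i
    simpa [hG, Matrix.smul_apply] using this
  -- a nonzero entry
  obtain ⟨k0, hk0⟩ : ∃ k, g i0 k ≠ 0 := by
    by_contra hcon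
    push Not at hcon
    apply hP'.ne_zero i0
    rw [hg]
    exact Finset.sum_eq_zero fun i _ => by rw [hcon, zero_smul]
  refine ⟨g i0 k0, hk0, fun j => ?_⟩
  have hr : ∀ i, ∃ q : ℚ, g j i / g i0 k0 = algebraMap ℚ E q := by
    intro i
    refine rational_of_conj_eq (C := C) _ fun σ τ => ?_
    obtain ⟨μ, hμ⟩ := hprop σ τ
    have e1 : σ (g j i) = (μ : C) * τ (g j i) := by
      have := congrArg (fun z : K C => (z : C)) (hμ j i)
      simpa using this
    have e2 : σ (g i0 k0) = (μ : C) * τ (g i0 k0) := by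
      have := congrArg (fun z : K C => (z : C)) (hμ i0 k0)
      simpa using this
    have e3 : σ (g i0 k0) ≠ 0 := (map_ne_zero σ).2 hk0
    have e4 : (μ : C) ≠ 0 := fun h0 => e3 (by rw [e2, h0, zero_mul])
    have e5 : τ (g i0 k0) ≠ 0 := (map_ne_zero τ).2 hk0
    rw [map_div₀, map_div₀, e1, e2]
    field_simp
  choose q hq using hr
  refine ⟨q, ?_⟩
  rw [hg j, Finset.smul_sum]
  refine Finset.sum_congr rfl fun i _ => ?_
  rw [← algebraMap_smul E (q i) (P i), ← hq i, smul_smul, mul_div_cancel₀ _ hk0]

end Fam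

end Pool.Agent.N192.AV
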