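import Mathlib
import Pool.Agent.N192.AV.Line

/-!
# `p`-adic closures of subgroups of simple abelian varieties with commutative endomorphism algebra
-/

namespace Pool.Agent.N192.AV

open Module

/-- The data attached to a simple abelian variety `A` over `ℚ` of dimension `n` whose endomorphism
algebra `E = End(A) ⊗ ℚ` is commutative (a number field), a prime `p` and a basis of `Lie(A)`. -/
structure Setup (p : ℕ) [Fact p.Prime] (n : ℕ) where
  /-- the space `A(ℚ) ⊗ ℚ` -/
  M : Type
  /-- the field `E = End(A) ⊗ ℚ` -/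
  E : Type
  [grp : AddCommGroup M]
  [fld : Field E]
  [chz : CharZero E]
  [fin : FiniteDimensional ℚ E]
  [mod : Module ℚ M]
  [modE : Module E M]
  [tower : IsScalarTower ℚ E M]
  /-- the `p`-adic logarithm `A(ℚ) ⊗ ℚ → Lie(A) ⊗ ℚ_p = ℚ_p^n` -/
  log : M →ₗ[ℚ] (Fin n → ℚ_[p])
  /-- the action of `E` on `Lie(A) = ℚ^n` -/
  tau : E →ₐ[ℚ] Matrix (Fin n) (Fin n) ℚ

attribute [instance] Setup.grp Setup.fld Setup.chz Setup.fin Setup.mod Setup.modE Setup.tower

variable {p : ℕ} [Fact p.Prime] {n : ℕ}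

/-- Properties of the data.

* `equiv`: the logarithm commutes with the action of `E`;
* `transc`: the `p`-adic analytic subgroup theorem for the powers `A^s`: if `P_1, ..., P_s` are
  linearly independent over `E`, then (as `A` is simple) `(P_1, ..., P_s)` lies in no proper algebraic
  subgroup of `A^s`, so that the coordinates of the logarithms of the `P_i` satisfy no nontrivial
  linear relation with algebraic coefficients. -/
structure Props (D : Setup p n) : Prop where
  equiv : ∀ (e : D.E) (P : D.M),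
    D.log (e • P) = ((D.tau e).map (fun x : ℚ => (x : ℚ_[p]))).mulVec (D.log P)
  transc : ∀ (s : ℕ) (P : Fin s → D.M), LinearIndependent D.E P →
    ∀ c : Fin s → Fin n → PadicAlgCl p, (∀ i j, IsAlgebraic ℚ (c i j)) →
      ∑ i, ∑ j, c i j * algebraMap ℚ_[p] (PadicAlgCl p) (D.log (P i) j) = 0 → ∀ i j, c i j = 0

/-- The `ℤ_p`-rank of the closure in `A(ℚ_p)` of a finitely generated subgroup `𝓛` of `A(ℚ)`, with
`L = 𝓛 ⊗ ℚ`: the dimension of the `ℚ_p`-subspace of `Lie(A) ⊗ ℚ_p` generated by its logarithms. -/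
noncomputable def closureRank (D : Setup p n) (L : Submodule ℚ D.M) : ℕ :=
  finrank ℚ_[p] (Submodule.span ℚ_[p] (D.log '' (L : Set D.M)))

/-- the `E`-subspace `E L` of `A(ℚ) ⊗ ℚ` generated by `L` -/
def spanE (D : Setup p n) (L : Submodule ℚ D.M) : Submodule D.E D.M :=
  Submodule.span D.E (L : Set D.M)

/-- `L' = e L` -/
def IsMultiple (D : Setup p n) (e : D.E) (L L' : Submodule ℚ D.M) : Prop :=
  ∀ x, x ∈ L' ↔ ∃ y ∈ L, x = e • y

section eig
variable {D : Setup p n}

/-- a common eigenvector of the matrices of `E` for the embedding `σ`, with algebraic entries -/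
theorem exists_eig (hn : 0 < n) (D : Setup p n) (σ : D.E →ₐ[ℚ] PadicAlgCl p) :
    ∃ φ : Fin n → PadicAlgCl p, (∀ k, IsAlgebraic ℚ (φ k)) ∧ φ ≠ 0 ∧
      ∀ x : D.E, Matrix.vecMul φ ((D.tau x).map (algebraMap ℚ (PadicAlgCl p))) = σ x • φ := by
  classical
  obtain ⟨θ, hθ⟩ := Field.exists_primitive_element ℚ D.E
  have : Nonempty (Fin n) := ⟨⟨0, hn⟩⟩
  have hinj : Function.Injective D.tau := D.tau.toRingHom.injective
  set K := algebraicClosure ℚ (PadicAlgCl p) with hK
  set s : K := Fam.sK σ θ with hs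
  set T : Matrix (Fin n) (Fin n) K := (D.tau θ).map (algebraMap ℚ K) with hT
  have h1 : T.charpoly.eval s = 0 := by
    have e1 : minpoly ℚ θ ∣ (D.tau θ).charpoly := by
      rw [← minpoly.algHom_eq D.tau hinj θ]
      exact Matrix.minpoly_dvd_charpoly _
    obtain ⟨q, hq⟩ := e1
    have e2 : T.charpoly = ((D.tau θ).charpoly).map (algebraMap ℚ K) := by
      rw [hT, ← Matrix.charpoly_map]
    rw [e2, hq, Polynomial.map_mul, Polynomial.eval_mul]
    have e3 : ((minpoly ℚ θ).map (algebraMap ℚ K)).eval s = 0 := by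
      apply Subtype.ext
      have e4 : Polynomial.aeval (σ θ) (minpoly ℚ θ) = 0 := by
        rw [Polynomial.aeval_algHom_apply, minpoly.aeval, map_zero]
      rw [Polynomial.eval_map, ← Polynomial.aeval_def]
      have e5 : ((Polynomial.aeval s (minpoly ℚ θ) : K) : PadicAlgCl p) =
          Polynomial.aeval (s : PadicAlgCl p) (minpoly ℚ θ) := by
        exact (Polynomial.aeval_algebraMap_apply (PadicAlgCl p) s (minpoly ℚ θ)).symm
      rw [e5]
      exact e4
    rw [e3, zero_mul]
  rw [Matrix.eval_charpoly] at h1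
  obtain ⟨v, hv, hv0⟩ := Matrix.exists_vecMul_eq_zero_iff.2 h1
  have h2 : Matrix.vecMul v T = s • v := by
    rw [Matrix.vecMul_sub] at hv0
    have e1 : Matrix.vecMul v (Matrix.scalar (Fin n) s) = s • v := by
      ext k
      simp [Matrix.scalar_apply, mul_comm]
    rw [e1, sub_eq_zero] at hv0
    exact hv0.symm
  refine ⟨fun k => (v k : PadicAlgCl p), fun k => Fam.alg_of_K _, fun h0 => hv ?_, ?_⟩
  · ext k
    simpa using congrFun h0 k
  set φ : Fin n → PadicAlgCl p := fun k => (v k : PadicAlgCl p) with hφ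
  let S : Subalgebra ℚ D.E :=
    { carrier := {x | Matrix.vecMul φ ((D.tau x).map (algebraMap ℚ (PadicAlgCl p))) = σ x • φ}
      mul_mem' := by
        intro x y hx hy
        simp only [Set.mem_ofPred_eq] at hx hy ⊢
        rw [map_mul, Matrix.map_mul, ← Matrix.vecMul_vecMul, hx, Matrix.smul_vecMul, hy, smul_smul,
          map_mul]
      add_mem' := by
        intro x y hx hy
        simp only [Set.mem_ofPred_eq] at hx hy ⊢
        rw [map_add, Matrix.map_add _ (map_add _), Matrix.vecMul_add, hx, hy, map_add, add_smul]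
      algebraMap_mem' := by
        intro r
        simp only [Set.mem_ofPred_eq]
        rw [AlgHom.commutes, AlgHom.commutes, Matrix.algebraMap_eq_diagonal]
        ext k
        rw [Matrix.diagonal_map (map_zero _)]
        simp [Matrix.vecMul_diagonal, mul_comm] }
  have h3 : θ ∈ S := by
    show Matrix.vecMul φ ((D.tau θ).map (algebraMap ℚ (PadicAlgCl p))) = σ θ • φ
    ext k
    have e1 := congrArg (fun z : K => (z : PadicAlgCl p)) (congrFun h2 k)
    simp only [Matrix.vecMul, dotProduct, Pi.smul_apply, smul_eq_mul] at e1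
    simp only [Matrix.vecMul, dotProduct, Pi.smul_apply, smul_eq_mul, hφ]
    have e2 : ((∑ x, v x * T x k : K) : PadicAlgCl p) =
        ∑ x, (v x : PadicAlgCl p) * (algebraMap ℚ (PadicAlgCl p)) (D.tau θ x k) := by
      rw [AddSubmonoidClass.coe_finsetSum]
      exact Finset.sum_congr rfl fun x _ => rfl
    rw [e2] at e1
    exact e1
  have h4 : S = ⊤ := by
    rw [eq_top_iff]
    have e1 : Algebra.adjoin ℚ {θ} = (⊤ : Subalgebra ℚ D.E) :=
      Algebra.adjoin_eq_top_of_primitive_element (Algebra.IsAlgebraic.isAlgebraic θ) hθ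
    rw [← e1]
    exact Algebra.adjoin_le (by simpa using h3)
  intro x
  have : x ∈ S := by rw [h4]; trivial
  exact this

end eig

section fam
variable {D : Setup p n} (hn : 0 < n) (hD : Props D)

/-- the coefficient vectors -/
noncomputable def phi (hn : 0 < n) (D : Setup p n) (σ : D.E →ₐ[ℚ] PadicAlgCl p) :
    Fin n → PadicAlgCl p := (exists_eig hn D σ).choose

theorem phi_alg (hn : 0 < n) (D : Setup p n) (σ : D.E →ₐ[ℚ] PadicAlgCl p) (k : Fin n) :
    IsAlgebraic ℚ (phi hn D σ k) := (exists_eig hn D σ).choose_spec.1 k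

theorem phi_ne (hn : 0 < n) (D : Setup p n) (σ : D.E →ₐ[ℚ] PadicAlgCl p) :
    phi hn D σ ≠ 0 := (exists_eig hn D σ).choose_spec.2.1

theorem phi_eig (hn : 0 < n) (D : Setup p n) (σ : D.E →ₐ[ℚ] PadicAlgCl p) (x : D.E) :
    Matrix.vecMul (phi hn D σ) ((D.tau x).map (algebraMap ℚ (PadicAlgCl p))) =
      σ x • phi hn D σ := (exists_eig hn D σ).choose_spec.2.2 x

/-- the functional applied to a vector of `ℚ_p^n` -/
noncomputable def ev (hn : 0 < n) (D : Setup p n) (σ : D.E →ₐ[ℚ] PadicAlgCl p) (v : Fin n → ℚ_[p]) :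
    PadicAlgCl p := ∑ k, phi hn D σ k * algebraMap ℚ_[p] (PadicAlgCl p) (v k)

theorem ev_add (σ : D.E →ₐ[ℚ] PadicAlgCl p) (v w : Fin n → ℚ_[p]) :
    ev hn D σ (v + w) = ev hn D σ v + ev hn D σ w := by
  simp [ev, mul_add, Finset.sum_add_distrib]

theorem ev_smul (σ : D.E →ₐ[ℚ] PadicAlgCl p) (c : ℚ_[p]) (v : Fin n → ℚ_[p]) :
    ev hn D σ (c • v) = algebraMap ℚ_[p] (PadicAlgCl p) c * ev hn D σ v := by
  simp only [ev, Pi.smul_apply, smul_eq_mul, map_mul, Finset.mul_sum]
  exact Finset.sum_congr rfl fun k _ => by ring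

/-- the family of functionals -/
noncomputable def fam (hn : 0 < n) (hD : Props D) : Fam D.E (PadicAlgCl p) D.M where
  lam σ m := ev hn D σ (D.log m)
  add σ x y := by rw [map_add, ev_add]
  smul σ e x := by
    classical
    rw [hD.equiv, ev]
    have h1 : ∀ k, algebraMap ℚ_[p] (PadicAlgCl p)
        ((((D.tau e).map (fun x : ℚ => (x : ℚ_[p]))).mulVec (D.log x)) k) =
        (((D.tau e).map (algebraMap ℚ (PadicAlgCl p))).mulVec
          (fun j => algebraMap ℚ_[p] (PadicAlgCl p) (D.log x j))) k := by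
      intro k
      simp [Matrix.mulVec, dotProduct]
    have h2 : ∑ k, phi hn D σ k * algebraMap ℚ_[p] (PadicAlgCl p)
        ((((D.tau e).map (fun x : ℚ => (x : ℚ_[p]))).mulVec (D.log x)) k) =
        dotProduct (phi hn D σ) (((D.tau e).map (algebraMap ℚ (PadicAlgCl p))).mulVec
          (fun j => algebraMap ℚ_[p] (PadicAlgCl p) (D.log x j))) :=
      Finset.sum_congr rfl fun k _ => by rw [h1]
    rw [h2, Matrix.dotProduct_mulVec, phi_eig, smul_dotProduct, smul_eq_mul]
    rfl
  indep s P hP σ a ha h0 := by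
    classical
    have h1 := hD.transc s P hP (fun i j => a i * phi hn D σ j)
      (fun i j => (ha i).mul (phi_alg hn D σ j)) (by
        rw [← h0]
        refine Finset.sum_congr rfl fun i _ => ?_
        rw [ev, Finset.mul_sum]
        exact Finset.sum_congr rfl fun j _ => by ring)
    intro i
    obtain ⟨j, hj⟩ : ∃ j, phi hn D σ j ≠ 0 := by
      by_contra hcon
      push Not at hcon
      exact phi_ne hn D σ (funext hcon)
    exact (mul_eq_zero.1 (h1 i j)).resolve_right hj

end fam

end Pool.Agent.N192.AV
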