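import Mathlib
import Pool.Agent.N192.AV.Setup

/-!
# Lower bound for the rank of the closure, and subgroups with a closure of rank one
-/

namespace Pool.Agent.N192.AV

open Module

variable {p : ℕ} [Fact p.Prime] {n : ℕ} {D : Setup p n}

theorem span_fin (L : Submodule ℚ D.M) : Module.Finite ℚ_[p] (Submodule.span ℚ_[p] (D.log '' (L : Set D.M))) :=
  inferInstance

theorem spanE_finite (L : Submodule ℚ D.M) [Module.Finite ℚ L] : Module.Finite D.E (spanE D L) := by
  obtain ⟨s, hs⟩ := (Module.Finite.iff_fg.1 ‹Module.Finite ℚ L›)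
  refine Module.Finite.iff_fg.2 ⟨s, ?_⟩
  apply le_antisymm
  · rw [Submodule.span_le]
    intro x hx
    exact Submodule.subset_span (by rw [← hs]; exact Submodule.subset_span hx)
  · rw [spanE, Submodule.span_le, ← hs]
    intro x hx
    have h1 : Submodule.span ℚ (s : Set D.M) ≤ (Submodule.span D.E (s : Set D.M)).restrictScalars ℚ :=
      Submodule.span_le.2 Submodule.subset_span
    exact h1 hx

/-- the rank of the closure is at least the rank of `L` divided by the dimension of `E L` -/
theorem finrank_le (hn : 0 < n) (hD : Props D) (L : Submodule ℚ D.M) [Module.Finite ℚ L] :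
    finrank ℚ L ≤ closureRank D L * finrank D.E (spanE D L) := by
  classical
  have hfin := spanE_finite L
  let b := finBasis ℚ L
  let P := finBasis D.E (spanE D L)
  have hmem : ∀ j, (b j : D.M) ∈ spanE D L := fun j => Submodule.subset_span (b j).2
  let x : Fin (finrank ℚ L) → Fin (finrank D.E (spanE D L)) → D.E :=
    fun j i => P.repr ⟨b j, hmem j⟩ i
  have hx : ∀ j, ((b j : L) : D.M) = ∑ i, x j i • ((P i : spanE D L) : D.M) := by
    intro j
    have h1 := P.sum_repr ⟨b j, hmem j⟩
    have h2 := congrArg (fun z : spanE D L => (z : D.M)) h1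
    simp only [Submodule.coe_sum, Submodule.coe_smul] at h2
    exact h2.symm
  refine (fam hn hD).card_le (fun j => ((b j : L) : D.M)) ?_ (fun i => ((P i : spanE D L) : D.M)) ?_ x
    hx ?_
  · exact b.linearIndependent.map' L.subtype (Submodule.ker_subtype L)
  · exact P.linearIndependent.map' (spanE D L).subtype (Submodule.ker_subtype _)
  · set W := Submodule.span ℚ_[p] (D.log '' (L : Set D.M)) with hW
    let w := finBasis ℚ_[p] W
    have hlog : ∀ l : L, D.log l ∈ W := fun l => Submodule.subset_span ⟨l, l.2, rfl⟩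
    let c : Fin (finrank ℚ_[p] W) → Fin (finrank ℚ L) → PadicAlgCl p :=
      fun a j => algebraMap ℚ_[p] (PadicAlgCl p) (w.repr ⟨D.log (b j), hlog (b j)⟩ a)
    have h1 : ∀ σ : D.E →ₐ[ℚ] PadicAlgCl p,
        (fun j : Fin (finrank ℚ L) => (fam hn hD).lam σ ((b j : L) : D.M)) ∈
          Submodule.span (PadicAlgCl p) (Set.range c) := by
      intro σ
      have h2 : (fun j : Fin (finrank ℚ L) => (fam hn hD).lam σ ((b j : L) : D.M)) =
          ∑ a, ev hn D σ ((w a : W) : Fin n → ℚ_[p]) • c a := by
        ext j
        have h3 : D.log ((b j : L) : D.M) =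
            ∑ a, w.repr ⟨D.log (b j), hlog (b j)⟩ a • ((w a : W) : Fin n → ℚ_[p]) := by
          have e1 := w.sum_repr ⟨D.log (b j), hlog (b j)⟩
          have e2 := congrArg (fun z : W => (z : Fin n → ℚ_[p])) e1
          simp only [Submodule.coe_sum, Submodule.coe_smul] at e2
          exact e2.symm
        have h4 : ∀ (s : Finset (Fin (finrank ℚ_[p] W))) (f : Fin (finrank ℚ_[p] W) → Fin n → ℚ_[p]),
            ev hn D σ (∑ a ∈ s, f a) = ∑ a ∈ s, ev hn D σ (f a) := by
          intro s f
          induction s using Finset.induction_on with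
          | empty => simp [ev]
          | insert a s ha ih => rw [Finset.sum_insert ha, Finset.sum_insert ha, ev_add, ih]
        show ev hn D σ (D.log ((b j : L) : D.M)) = _
        rw [h3, h4, Finset.sum_apply]
        refine Finset.sum_congr rfl fun a _ => ?_
        rw [ev_smul, Pi.smul_apply, smul_eq_mul, mul_comm]
      rw [h2]
      exact Submodule.sum_mem _ fun a _ => Submodule.smul_mem _ _ (Submodule.subset_span ⟨a, rfl⟩)
    calc finrank (PadicAlgCl p) (Submodule.span (PadicAlgCl p) (Set.range fun
          (σ : D.E →ₐ[ℚ] PadicAlgCl p) (j : Fin (finrank ℚ L)) =>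
            (fam hn hD).lam σ ((b j : L) : D.M)))
        ≤ finrank (PadicAlgCl p) (Submodule.span (PadicAlgCl p) (Set.range c)) := by
          apply Submodule.finrank_mono
          rw [Submodule.span_le]
          rintro _ ⟨σ, rfl⟩
          exact h1 σ
      _ ≤ Fintype.card (Fin (finrank ℚ_[p] W)) := finrank_range_le_card c
      _ = closureRank D L := by rw [Fintype.card_fin]; rfl

theorem closureRank_le (L : Submodule ℚ D.M) [Module.Finite ℚ L] :
    closureRank D L ≤ finrank ℚ L := by
  classical
  let b := finBasis ℚ L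
  have h1 : Submodule.span ℚ_[p] (D.log '' (L : Set D.M)) ≤
      Submodule.span ℚ_[p] (Set.range fun j => D.log ((b j : L) : D.M)) := by
    rw [Submodule.span_le]
    rintro _ ⟨x, hx, rfl⟩
    have e1 := b.sum_repr ⟨x, hx⟩
    have e2 := congrArg (fun z : L => D.log (z : D.M)) e1
    simp only [Submodule.coe_sum, Submodule.coe_smul, map_sum, map_smul] at e2
    show D.log x ∈ _
    rw [← e2]
    refine Submodule.sum_mem _ fun j _ => ?_
    rw [← algebraMap_smul ℚ_[p]]
    exact Submodule.smul_mem _ _ (Submodule.subset_span ⟨j, rfl⟩)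
  calc closureRank D L ≤ finrank ℚ_[p] (Submodule.span ℚ_[p]
        (Set.range fun j => D.log ((b j : L) : D.M))) := Submodule.finrank_mono h1
    _ ≤ Fintype.card (Fin (finrank ℚ L)) := finrank_range_le_card _
    _ = finrank ℚ L := Fintype.card_fin _

end Pool.Agent.N192.AV
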