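import Mathlib
import Pool.Agent.N192.AV.Main

/-!
# Subgroups with a closure of rank one
-/

namespace Pool.Agent.N192.AV

open Module

variable {p : ℕ} [Fact p.Prime] {n : ℕ} {D : Setup p n}

/-- multiplication by `e` -/
def mulE (D : Setup p n) (e : D.E) : D.M →ₗ[ℚ] D.M where
  toFun m := e • m
  map_add' := smul_add e
  map_smul' q m := by
    rw [RingHom.id_apply, ← algebraMap_smul D.E q m, ← algebraMap_smul D.E q (e • m), smul_smul,
      smul_smul, mul_comm]

theorem mulE_inj {e : D.E} (he : e ≠ 0) : Function.Injective (mulE D e) := by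
  intro x y h
  exact smul_right_injective D.M he h

theorem span_basis (L : Submodule ℚ D.M) {m : ℕ} (b : Basis (Fin m) ℚ L) :
    Submodule.span D.E (Set.range fun j => ((b j : L) : D.M)) = spanE D L := by
  apply le_antisymm
  · rw [Submodule.span_le]
    rintro _ ⟨j, rfl⟩
    exact Submodule.subset_span (b j).2
  · rw [spanE, Submodule.span_le]
    intro x hx
    have e1 := b.sum_repr ⟨x, hx⟩
    have e2 := congrArg (fun z : L => (z : D.M)) e1
    simp only [Submodule.coe_sum, Submodule.coe_smul] at e2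
    show x ∈ _
    rw [← e2]
    refine Submodule.sum_mem _ fun j _ => ?_
    rw [← algebraMap_smul D.E]
    exact Submodule.smul_mem _ _ (Submodule.subset_span ⟨j, rfl⟩)

theorem finrank_eq (hn : 0 < n) (hD : Props D) (L : Submodule ℚ D.M) [Module.Finite ℚ L]
    (h1 : closureRank D L = 1) : finrank ℚ L = finrank D.E (spanE D L) := by
  classical
  apply le_antisymm
  · have := finrank_le hn hD L
    rwa [h1, one_mul] at this
  · rw [← span_basis L (finBasis ℚ L)]
    calc _ ≤ Fintype.card (Fin (finrank ℚ L)) := finrank_range_le_card _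
      _ = _ := Fintype.card_fin _

theorem indep_basis (hn : 0 < n) (hD : Props D) (L : Submodule ℚ D.M) [Module.Finite ℚ L]
    (h1 : closureRank D L = 1) {m : ℕ} (b : Basis (Fin m) ℚ L) :
    LinearIndependent D.E (fun j => ((b j : L) : D.M)) := by
  rw [linearIndependent_iff_card_eq_finrank_span, Set.finrank, span_basis L b,
    ← finrank_eq hn hD L h1, finrank_eq_card_basis b]

theorem exists_line (L : Submodule ℚ D.M) (h1 : closureRank D L = 1) :
    ∃ u : Fin n → ℚ_[p], ∀ x ∈ L, ∃ c : ℚ_[p], D.log x = c • u := by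
  obtain ⟨v, -, hv⟩ := finrank_eq_one_iff'.1 h1
  refine ⟨v, fun x hx => ?_⟩
  obtain ⟨c, hc⟩ := hv ⟨D.log x, Submodule.subset_span ⟨x, hx, rfl⟩⟩
  exact ⟨c, (congrArg Subtype.val hc).symm⟩

/-- two subgroups with closures of rank one which generate the same `E`-subspace are multiples of
each other -/
theorem multiple (hn : 0 < n) (hD : Props D) (L L' : Submodule ℚ D.M) [Module.Finite ℚ L]
    [Module.Finite ℚ L'] (h1 : closureRank D L = 1) (h1' : closureRank D L' = 1)
    (hE : spanE D L = spanE D L') : ∃ e : D.E, e ≠ 0 ∧ IsMultiple D e L L' := by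
  classical
  set t := finrank D.E (spanE D L) with ht
  have hL : finrank ℚ L = t := finrank_eq hn hD L h1
  have hL' : finrank ℚ L' = t := by rw [finrank_eq hn hD L' h1', ← hE]
  have htpos : 0 < t := by
    have := closureRank_le L
    omega
  let b := finBasisOfFinrankEq ℚ L hL
  let b' := finBasisOfFinrankEq ℚ L' hL'
  have hP := indep_basis hn hD L h1 b
  have hP' := indep_basis hn hD L' h1' b'
  have hg : ∀ j, ∃ g : Fin t → D.E, ((b' j : L') : D.M) = ∑ i, g i • ((b i : L) : D.M) := by
    intro j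
    have h2 : ((b' j : L') : D.M) ∈ Submodule.span D.E (Set.range fun i => ((b i : L) : D.M)) := by
      rw [span_basis L b, hE]
      exact Submodule.subset_span (b' j).2
    rw [Submodule.mem_span_range_iff_exists_fun] at h2
    obtain ⟨g, hg⟩ := h2
    exact ⟨g, hg.symm⟩
  choose g hg using hg
  obtain ⟨u, hu⟩ := exists_line L h1
  obtain ⟨u', hu'⟩ := exists_line L' h1'
  choose c hc using fun i => hu _ (b i).2
  choose c' hc' using fun i => hu' _ (b' i).2
  obtain ⟨e, he, hq⟩ := (fam hn hD).line_unique htpos _ _ hP hP' (Matrix.of g) hg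
    (fun i => algebraMap ℚ_[p] (PadicAlgCl p) (c i)) (fun i => algebraMap ℚ_[p] (PadicAlgCl p) (c' i))
    (fun σ => ev hn D σ u) (fun σ => ev hn D σ u')
    (fun σ i => by
      show ev hn D σ (D.log _) = _
      rw [hc, ev_smul])
    (fun σ i => by
      show ev hn D σ (D.log _) = _
      rw [hc', ev_smul])
  refine ⟨e, he, ?_⟩
  have hle : L' ≤ L.map (mulE D e) := by
    intro x hx
    have e1 := b'.sum_repr ⟨x, hx⟩
    have e2 := congrArg (fun z : L' => (z : D.M)) e1
    simp only [Submodule.coe_sum, Submodule.coe_smul] at e2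
    rw [← e2]
    refine Submodule.sum_mem _ fun j _ => Submodule.smul_mem _ _ ?_
    obtain ⟨q, hq⟩ := hq j
    refine ⟨∑ i, q i • ((b i : L) : D.M), Submodule.sum_mem _ fun i _ =>
      Submodule.smul_mem _ _ (b i).2, ?_⟩
    exact hq.symm
  have hfr : finrank ℚ L' = finrank ℚ (L.map (mulE D e)) := by
    rw [hL', ← hL]
    exact (LinearEquiv.finrank_eq (Submodule.equivMapOfInjective _ (mulE_inj he) L))
  have heq : L' = L.map (mulE D e) := by
    have : Module.Finite ℚ (L.map (mulE D e)) := inferInstance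
    exact Submodule.eq_of_le_of_finrank_eq hle hfr
  intro x
  rw [heq]
  constructor
  · rintro ⟨y, hy, rfl⟩
    exact ⟨y, hy, rfl⟩
  · rintro ⟨y, hy, rfl⟩
    exact ⟨y, hy, rfl⟩

theorem closureRank_pos (hn : 0 < n) (hD : Props D) (L : Submodule ℚ D.M) [Module.Finite ℚ L]
    (h : 0 < finrank ℚ L) : 0 < closureRank D L := by
  rcases Nat.eq_zero_or_pos (closureRank D L) with h0 | h0
  · have := finrank_le hn hD L
    rw [h0, zero_mul] at this
    omega
  · exact h0

/-- in a space of dimension at most two over `E` all subgroups of rank at most two have a closure of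
full rank outside one orbit -/
theorem one_orbit (hn : 0 < n) (hD : Props D) (V : Submodule D.E D.M) [Module.Finite D.E V]
    (hV : finrank D.E V ≤ 2) : ∃ L₀ : Submodule ℚ D.M, ∀ L : Submodule ℚ D.M, Module.Finite ℚ L →
      (∀ x ∈ L, x ∈ V) → finrank ℚ L ≤ 2 →
      closureRank D L = finrank ℚ L ∨ ∃ e : D.E, e ≠ 0 ∧ IsMultiple D e L₀ L := by
  classical
  have key : ∀ L : Submodule ℚ D.M, Module.Finite ℚ L → (∀ x ∈ L, x ∈ V) → finrank ℚ L ≤ 2 →
      closureRank D L ≠ finrank ℚ L → closureRank D L = 1 ∧ spanE D L = V := by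
    intro L hL hLV h2 hne
    have hle := closureRank_le L
    have h3 : 0 < closureRank D L := closureRank_pos hn hD L (by omega)
    have h4 : closureRank D L = 1 := by omega
    have h5 : finrank ℚ L = 2 := by omega
    refine ⟨h4, ?_⟩
    have h6 : spanE D L ≤ V := Submodule.span_le.2 hLV
    apply Submodule.eq_of_le_of_finrank_le h6
    rw [← finrank_eq hn hD L h4]
    omega
  by_cases hex : ∃ L₀ : Submodule ℚ D.M, Module.Finite ℚ L₀ ∧ (∀ x ∈ L₀, x ∈ V) ∧
      finrank ℚ L₀ ≤ 2 ∧ closureRank D L₀ ≠ finrank ℚ L₀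
  · obtain ⟨L₀, hf, hV0, h20, hne0⟩ := hex
    refine ⟨L₀, fun L hL hLV h2 => ?_⟩
    by_cases hne : closureRank D L = finrank ℚ L
    · exact Or.inl hne
    · right
      obtain ⟨a1, a2⟩ := key L₀ hf hV0 h20 hne0
      obtain ⟨a3, a4⟩ := key L hL hLV h2 hne
      exact multiple hn hD L₀ L a1 a3 (by rw [a2, a4])
  · push Not at hex
    exact ⟨⊥, fun L hL hLV h2 => Or.inl (hex L hL hLV h2)⟩

end Pool.Agent.N192.AV
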